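import Pool.Agent.Helper35.SHR.Sheet

namespace SHR
open SHQ
open scoped ENNReal
open Filter Topology

theorem toE_zero : toE 0 = 0 := by simp [toE]

theorem om_zero2 : NOm.om ⟨[0, 0, 0, 0], 0, 0⟩ = ⟨fun _ => 0, 0, 0⟩ := by
  unfold NOm.om
  congr 1
  · funext k
    have : List.getD [0, 0, 0, 0] k 0 = 0 := by
      rcases k with _ | _ | _ | _ | k <;> rfl
    rw [this, toE_zero]
  · exact toE_zero
  · exact toE_zero

theorem toE_zz : toE zz = ENNReal.ofReal (348578 / 1000000 : ℝ) := by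
  unfold toE zz DD
  rw [← ENNReal.ofReal_natCast, ← ENNReal.ofReal_natCast, ← ENNReal.ofReal_div_of_pos (by positivity)]
  congr 1
  norm_num

theorem st_ASM2 (hLIM : ST_LIM) (hFIN : ST_FIN) (hLEV : ST_LEV2) (hLZ : ST_LZ2) (hTOP : ST_TOP2)
    (hSUM : ST_SUM2) (hPSI : ST_PSI2) (hNUM : ST_NUM2) : ST_ASM2 := by
  obtain ⟨L, hL1, hlim, hle⟩ := hLIM
  refine ⟨L, ?_, hlim⟩
  by_contra hcon
  push Not at hcon
  have hLz : L * (348578 / 1000000 : ℝ) ^ 2 < 1 := by nlinarith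
  have hfin := hFIN L (348578 / 1000000 : ℝ) (by norm_num) (by linarith) hLz hle 0
  rw [← toE_zz] at hfin
  have hz1 : toE zz ≠ 0 := by
    rw [toE_zz, Ne, ENNReal.ofReal_eq_zero]; norm_num
  have hz2 : toE zz ≠ ⊤ := by rw [toE_zz]; exact ENNReal.ofReal_ne_top
  obtain ⟨N, o, ho, hchk, hN⟩ := hNUM
  have key : ∀ i : ℕ, i ≤ N → Lev 3 (toE zz) (o i).om := by
    intro i
    induction i with
    | zero =>
      intro _
      rw [ho, om_zero2]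
      exact hLZ 3 _ hz1
    | succ i ih =>
      intro hi
      obtain ⟨⟨C, hC, hψ⟩, hψ1⟩ := hPSI 3 TE TN (o i) (by decide)
      exact hLEV 3 (toE zz) C _ _ _ hz1 hz2 hC hψ hψ1 (hSUM 3 zz 16 TE TN _ _ (hchk i (by omega)))
        (ih (by omega))
  have hbe : 1 ≤ toE zz * (o N).om.be := by
    show 1 ≤ toE zz * toE (o N).be
    unfold toE
    have hD : ((DD : ℕ) : ℝ≥0∞) ≠ 0 := by
      rw [Nat.cast_ne_zero]; decide
    have hD' : ((DD : ℕ) : ℝ≥0∞) ≠ ⊤ := ENNReal.natCast_ne_top _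
    rw [div_eq_mul_inv, div_eq_mul_inv,
      show ((zz : ℕ) : ℝ≥0∞) * ((DD : ℕ) : ℝ≥0∞)⁻¹ * (((o N).be : ℝ≥0∞) * ((DD : ℕ) : ℝ≥0∞)⁻¹) =
        (((zz : ℕ) : ℝ≥0∞) * ((o N).be : ℝ≥0∞)) * (((DD : ℕ) : ℝ≥0∞)⁻¹ * ((DD : ℕ) : ℝ≥0∞)⁻¹) by ring,
      ← ENNReal.mul_inv (Or.inl hD) (Or.inl hD'), ← div_eq_mul_inv,
      ENNReal.le_div_iff_mul_le (Or.inl (mul_ne_zero hD hD)) (Or.inl (ENNReal.mul_ne_top hD' hD')),
      one_mul]
    exact_mod_cast hN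
  have htop := hTOP 3 (toE zz) _ hz1 hbe (key N le_rfl) 0
  rw [htop] at hfin
  exact lt_irrefl _ hfin

end SHR
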