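import Pool.Agent.Helper35.SHR.Sheet

namespace SHR
open SHQ
open scoped ENNReal
open Filter Topology

variable {n : ℕ}

theorem l_ValC_app (o : Om) (T S : Tr) : ∀ (b : St n) (f : St n → ℝ≥0∞),
    ValC o b (T.app S) f = ValC o b T (fun b' => ValC o b' S f) := by
  induction T with
  | nil => intro b f; rfl
  | one a T ih => intro b f; simp only [Tr.app, ValC, ih]
  | two c T T' ih ih' => intro b f; simp only [Tr.app, ValC, ih, ih']

theorem l_ValC_mul (o : Om) (c : ℝ≥0∞) (T : Tr) : ∀ (b : St n) (f : St n → ℝ≥0∞),
    ValC o b T (fun b' => f b' * c) = ValC o b T f * c := by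
  induction T with
  | nil => intro b f; rfl
  | one a T ih => intro b f; simp only [ValC, ih]; ring
  | two d T T' ih ih' => intro b f; simp only [ValC, ih, ih']; ring

theorem l_ValC_mono (o : Om) (T : Tr) : ∀ (b : St n) (f g : St n → ℝ≥0∞), (∀ b, f b ≤ g b) →
    ValC o b T f ≤ ValC o b T g := by
  induction T with
  | nil => intro b f g h; exact h b
  | one a T ih => intro b f g h; simp only [ValC]; gcongr; exact ih _ _ _ h
  | two d T T' ih ih' =>
    intro b f g h; simp only [ValC]; gcongr
    · exact ih _ _ _ h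
    · exact ih' _ _ _ h

/-- linear operators -/
structure LOp {ι : Type} (Φ : (ι → ℝ≥0∞) → ℝ≥0∞) : Prop where
  add : ∀ a b : ι → ℝ≥0∞, Φ (fun i => a i + b i) = Φ a + Φ b
  mul : ∀ (c : ℝ≥0∞) (a : ι → ℝ≥0∞), Φ (fun i => c * a i) = c * Φ a
  mono : ∀ a b : ι → ℝ≥0∞, (∀ i, a i ≤ b i) → Φ a ≤ Φ b

theorem lop_tsum (ι : Type) : LOp (fun φ : ι → ℝ≥0∞ => ∑' i, φ i) where
  add _ _ := ENNReal.tsum_add
  mul _ _ := ENNReal.tsum_mul_left
  mono _ _ h := ENNReal.tsum_le_tsum h

theorem lop_TSum (k : ℕ) : LOp (TSum k) := by
  induction k with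
  | zero => exact ⟨fun _ _ => rfl, fun _ _ => rfl, fun a b h => h []⟩
  | succ k ih =>
    refine ⟨fun a b => ?_, fun c a => ?_, fun a b h => ?_⟩
    · simp only [TSum]
      rw [← ENNReal.tsum_add]
      exact tsum_congr fun y => ih.add _ _
    · simp only [TSum]
      rw [← ENNReal.tsum_mul_left]
      exact tsum_congr fun y => ih.mul _ _
    · simp only [TSum]
      exact ENNReal.tsum_le_tsum fun y => ih.mono _ _ fun ys => h _

theorem lop_comb (k : ℕ) : LOp (fun φ : List (List Bool) × List Bool → ℝ≥0∞ =>
    TSum k fun ys => ∑' y : List Bool, φ (ys, y)) where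
  add a b := by
    rw [← (lop_TSum k).add]
    congr 1; funext ys; exact ENNReal.tsum_add
  mul c a := by
    rw [← (lop_TSum k).mul]
    congr 1; funext ys; exact ENNReal.tsum_mul_left
  mono a b h := (lop_TSum k).mono _ _ fun ys => ENNReal.tsum_le_tsum fun y => h _

theorem l_ValC_op {ι : Type} {Φ : (ι → ℝ≥0∞) → ℝ≥0∞} (hΦ : LOp Φ) (o : Om) (a : ι → ℝ≥0∞)
    (T : Tr) : ∀ (b : St n) (f : ι → St n → ℝ≥0∞),
    Φ (fun i => a i * ValC o b T (f i)) = ValC o b T (fun b' => Φ fun i => a i * f i b') := by
  induction T with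
  | nil => intro b f; rfl
  | one c T ih =>
    intro b f
    simp only [ValC]
    rw [← ih, ← hΦ.mul]
    congr 1; funext i; ring
  | two d T T' ih ih' =>
    intro b f
    simp only [ValC]
    rw [← ih, ← ih', ← hΦ.add, ← hΦ.mul]
    congr 1; funext i; ring

theorem l_ValS_app (o : Om) (T S : Tr) (hT : T ≠ .nil) (f : St n → ℝ≥0∞) :
    ValS o (T.app S) f = ValS o T (fun b' => ValC o b' S f) := by
  cases T with
  | nil => exact absurd rfl hT
  | one a T => simp only [Tr.app, ValS, l_ValC_app]
  | two c T T' => simp only [Tr.app, ValS, l_ValC_app]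

theorem l_ValS_mul (o : Om) (c : ℝ≥0∞) (T : Tr) (f : St n → ℝ≥0∞) :
    ValS o T (fun b' => f b' * c) = ValS o T f * c := by
  cases T with
  | nil => simp [ValS]
  | one a T => simp only [ValS, l_ValC_mul]
  | two d T T' => simp only [ValS, l_ValC_mul]; ring

theorem l_ValS_mono (o : Om) (T : Tr) (f g : St n → ℝ≥0∞) (h : ∀ b, f b ≤ g b) :
    ValS o T f ≤ ValS o T g := by
  cases T with
  | nil => simp [ValS]
  | one a T => exact l_ValC_mono o T _ _ _ h
  | two d T T' => exact add_le_add (l_ValC_mono o T _ _ _ h) (l_ValC_mono o T' _ _ _ h)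

theorem l_ValS_op {ι : Type} {Φ : (ι → ℝ≥0∞) → ℝ≥0∞} (hΦ : LOp Φ) (o : Om) (a : ι → ℝ≥0∞)
    (T : Tr) (hT : T ≠ .nil) (f : ι → St n → ℝ≥0∞) :
    Φ (fun i => a i * ValS o T (f i)) = ValS o T (fun b' => Φ fun i => a i * f i b') := by
  cases T with
  | nil => exact absurd rfl hT
  | one c T => simp only [ValS]; exact l_ValC_op hΦ o a T _ _
  | two d T T' =>
    simp only [ValS]
    rw [← l_ValC_op hΦ, ← l_ValC_op hΦ, ← hΦ.add]
    congr 1; funext i; ring

theorem l_app_ne (S D : Tr) (hS : S ≠ .nil) : S.app D ≠ .nil := by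
  cases S with
  | nil => exact absurd rfl hS
  | one a T => simp [Tr.app]
  | two c T T' => simp [Tr.app]

theorem lev_core2 {ι : Type} {Φ : (ι → ℝ≥0∞) → ℝ≥0∞} (hΦ : LOp Φ) (o : Om) (c0 k V : ℝ≥0∞)
    (ψp ψg : St n → ℝ≥0∞) (a : ι → ℝ≥0∞) (D : ι → Tr) (S : Tr) (hS : S ≠ .nil)
    (h : ∀ b, k * ψp b ≤ Φ fun i => a i * ValC o b (D i) ψg) :
    c0 * ValS o S (fun b => ψp b * (k * V)) ≤
      Φ fun i => a i * (c0 * ValS o (S.app (D i)) (fun b' => ψg b' * V)) := by
  have e : (Φ fun i => a i * (c0 * ValS o (S.app (D i)) (fun b' => ψg b' * V))) =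
      c0 * ValS o S (fun b => (Φ fun i => a i * ValC o b (D i) ψg) * V) := by
    have e1 : (fun i => a i * (c0 * ValS o (S.app (D i)) (fun b' => ψg b' * V))) =
        fun i => c0 * (a i * ValS o S (fun b => ValC o b (D i) ψg * V)) := by
      funext i
      rw [l_ValS_app o _ _ hS]
      simp only [l_ValC_mul]
      ring
    rw [e1, hΦ.mul, l_ValS_op hΦ o a S hS]
    congr 2
    funext b
    rw [mul_comm _ V, ← hΦ.mul]
    congr 1; funext i; ring
  rw [e]
  refine mul_le_mul_right ?_ c0
  refine l_ValS_mono o S _ _ fun b => ?_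
  calc ψp b * (k * V) = (k * ψp b) * V := by ring
    _ ≤ _ := by gcongr; exact h b

/-- size -/
def sz : Tr → ℕ
  | .nil => 0
  | .one _ T => sz T + 1
  | .two _ T T' => sz T + sz T' + 1

theorem sz_ones (p : Fin 3) (k : ℕ) (R : Tr) : sz (ones p k R) = k + sz R := by
  induction k with
  | zero => simp [ones]
  | succ k ih => simp only [ones, sz, ih]; omega

theorem decomp (p : Fin 3) (T : Tr) : ∃ k R, T = ones p k R ∧ ∀ T', R ≠ .one p T' := by
  induction T with
  | nil => exact ⟨0, .nil, rfl, by simp⟩
  | one a T ih =>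
    by_cases h : a = p
    · subst h
      obtain ⟨k, R, h1, h2⟩ := ih
      exact ⟨k + 1, R, by simp [ones, ← h1], h2⟩
    · exact ⟨0, .one a T, rfl, fun T' h' => h (by injection h')⟩
  | two c T T' _ _ => exact ⟨0, .two c T T', rfl, by simp⟩

theorem val_ones (o : Om) (p : Fin 3) (R : Tr) (f : St n → ℝ≥0∞) : ∀ (k r : ℕ) (hr : r < n + 1),
    ValC o (p, ⟨r, hr⟩) (ones p k R) f =
      o.be ^ (r + k - n) * ValC o (p, ⟨min (r + k) n, by omega⟩) R f := by
  intro k
  induction k with
  | zero =>
    intro r hr
    have h1 : r + 0 - n = 0 := by omega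
    have h2 : min (r + 0) n = r := by omega
    simp only [ones, h1, pow_zero, one_mul, h2]
  | succ k ih =>
    intro r hr
    simp only [ones, ValC, wt, nx, if_true]
    by_cases h : r < n
    · simp only [h, if_true, dif_pos, one_mul]
      rw [ih (r + 1) (by omega)]
      have h1 : r + 1 + k = r + (k + 1) := by omega
      simp only [h1]
    · simp only [h, if_false, dif_neg, not_false_eq_true]
      rw [ih r hr]
      have h1 : r + (k + 1) - n = (r + k - n) + 1 := by omega
      have h2 : min (r + (k + 1)) n = min (r + k) n := by omega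
      simp only [h1, h2, pow_succ]
      ring

theorem val_ones0 (o : Om) (p : Fin 3) (R : Tr) (f : St n → ℝ≥0∞) (k : ℕ) :
    ValC o (p, 0) (ones p k R) f =
      o.be ^ (k - n) * ValC o (p, ⟨min k n, by omega⟩) R f := by
  have := val_ones o p R f k 0 (by omega)
  simp only [Nat.zero_add] at this
  exact this

theorem st_LEV2 (hG : ST_GR) (hG2 : ST_GR2) (hL : ST_LNG) : ST_LEV2 := by
  intro n z C ψ o o' hz hz' hC hψ hψ1 hGood ⟨c, hc, hlev⟩
  obtain ⟨g0, -, g2, g3, g4, g5, -, -⟩ := hG z
  obtain ⟨n1, n2, n3⟩ := hGood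
  obtain ⟨-, hass, -, -, -⟩ := hL
  have hC0 : C ≠ 0 := by
    intro h
    have h1 := hψ1 0 1 (by decide)
    have h2 := hψ 0 (1, 0)
    rw [h, zero_mul] at h2
    exact absurd (h1.trans h2) (by simp)
  set c0 := c / C with hc0
  have hc0' : c0 ≠ 0 := by
    rw [hc0]; exact ENNReal.div_ne_zero.2 ⟨hc, hC⟩
  have key : ∀ (N : ℕ) (T : Tr), sz T ≤ N → ∀ (p : Fin 3) (S : Tr), S ≠ .nil →
      c0 * ValS (n := n) o S (fun s => ψ p s * ValC (n := n) o' (p, 0) T (ev o')) ≤ G z p (T.app S) := by
    intro N
    induction N with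
    | zero =>
      intro T hT p S hS
      cases T with
      | one a T => simp [sz] at hT
      | two d T T' => simp [sz] at hT
      | nil =>
        calc c0 * ValS (n := n) o S (fun s => ψ p s * ValC (n := n) o' (p, 0) .nil (ev o'))
            ≤ c0 * ValS (n := n) o S (fun s => ev o s * C) := by
              gcongr
              refine l_ValS_mono o S _ _ fun b => ?_
              have := hψ p b
              simp only [ValC, ev, Fin.val_zero, pow_zero, mul_one] at this ⊢
              rw [mul_comm] at this
              exact this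
          _ = c * ValS (n := n) o S (ev o) := by
              rw [l_ValS_mul, hc0, mul_comm (ValS o S _) C, ← mul_assoc,
                ENNReal.div_mul_cancel hC0 hC]
          _ ≤ F z S := hlev S
          _ ≤ G z p S := g0 p S
    | succ N ih =>
      intro T hT p S hS
      cases T with
      | nil => exact ih .nil (by simp [sz]) p S hS
      | two d T T' =>
        simp only [sz] at hT
        have hd1 : d ≠ d + 1 := by revert d; decide
        have hd2 : d ≠ d + 2 := by revert d; decide
        have e2 : ValS (n := n) o S (fun b => ψ p b * ValC (n := n) o' (p, 0) (.two d T T') (ev o')) =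
            ValS (n := n) o S (fun b => ψ p b * (o'.ka * ValC (n := n) o' (d + 1, 0) T (ev o'))) +
            ValS (n := n) o S (fun b => ψ p b * (o'.ka * ValC (n := n) o' (d + 2, 0) T' (ev o'))) := by
          have h0 := l_ValS_mul o (ValC (n := n) o' (p, 0) (.two d T T') (ev o')) S (ψ p)
          have h1 := l_ValS_mul o (o'.ka * ValC (n := n) o' (d + 1, 0) T (ev o')) S (ψ p)
          have h2 := l_ValS_mul o (o'.ka * ValC (n := n) o' (d + 2, 0) T' (ev o')) S (ψ p)
          rw [h0, h1, h2]
          simp only [ValC, kp, Fin.val_zero, pow_zero, one_mul]; ring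
        rw [e2, mul_add]
        have l1 := lev_core2 (lop_tsum ℕ) o c0 o'.ka (ValC (n := n) o' (d + 1, 0) T (ev o')) (ψ p)
          (ψ (d + 1)) (fun j : ℕ => z ^ (j + 1)) (fun j => fix (List.replicate j d)) S hS
          (fun b => n3 p (d + 1) d b hd1)
        have l2 := lev_core2 (lop_tsum ℕ) o c0 o'.ka (ValC (n := n) o' (d + 2, 0) T' (ev o')) (ψ p)
          (ψ (d + 2)) (fun j : ℕ => z ^ (j + 1)) (fun j => fix (List.replicate j d)) S hS
          (fun b => n3 p (d + 2) d b hd2)
        refine (add_le_add l1 l2).trans ?_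
        rw [← ENNReal.tsum_add]
        refine le_trans ?_ (g3 p d (T.app S) (T'.app S))
        refine ENNReal.tsum_le_tsum fun j => ?_
        rw [mul_add, hass, hass]
        gcongr
        · exact ih _ (by omega) (d + 1) _ (l_app_ne _ _ hS)
        · exact ih _ (by omega) (d + 2) _ (l_app_ne _ _ hS)
      | one a T1 =>
        obtain ⟨k, R, hR, hRp⟩ := decomp p (.one a T1)
        by_cases hcase : ∃ g T', R = .one g T' ∧ k ≤ n
        · obtain ⟨g, T', rfl, hk⟩ := hcase
          have hgp : g ≠ p := fun h => hRp T' (by rw [h])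
          rw [hR] at hT ⊢
          rw [sz_ones] at hT
          simp only [sz] at hT
          have e : ValC (n := n) o' (p, 0) (ones p k (.one g T')) (ev o') =
              o'.rho k * ValC (n := n) o' (g, 0) T' (ev o') := by
            rw [val_ones0]
            have h1 : k - n = 0 := by omega
            have h2 : min k n = k := by omega
            simp only [h1, h2, pow_zero, one_mul, ValC, wt, nx, if_neg hgp]
          rw [e]
          have l1 := lev_core2 (lop_comb k) o c0 (o'.rho k) (ValC (n := n) o' (g, 0) T' (ev o'))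
            (ψ p) (ψ g) (fun i : List (List Bool) × List Bool =>
              z ^ (i.1.flatten.length + k + i.2.length + 1)) (fun i => RT p g i.1 i.2) S hS
            (fun b => n1 k hk p g b hgp)
          refine l1.trans ?_
          have e3 : (ones p k (.one g T')).app S = ones p k (.one g (T'.app S)) := by
            clear hR hT l1 e
            induction k with
            | zero => rfl
            | succ k ih2 => simp only [ones, Tr.app]; rw [ih2 (by omega)]
          rw [e3]
          refine le_trans ?_ (hG2 z k p g (T'.app S) hgp)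
          refine (lop_TSum k).mono _ _ fun ys => ENNReal.tsum_le_tsum fun y => ?_
          dsimp only
          gcongr
          rw [hass]
          exact ih _ (by omega) g _ (l_app_ne _ _ hS)
        · have hk : k ≠ 0 := by
            rintro rfl
            simp only [ones] at hR
            exact hcase ⟨a, T1, hR.symm, Nat.zero_le _⟩
          obtain ⟨m, rfl⟩ := Nat.exists_eq_succ_of_ne_zero hk
          simp only [Nat.succ_eq_add_one, ones, Tr.one.injEq] at hR
          obtain ⟨rfl, hT1⟩ := hR
          simp only [sz] at hT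
          have e : ValC (n := n) o' (a, 0) (.one a T1) (ev o') =
              o'.be * ValC (n := n) o' (a, 0) T1 (ev o') := by
            have e0 : (.one a T1 : Tr) = ones a (m + 1) R := by simp [ones, hT1]
            rw [e0, hT1, val_ones0, val_ones0]
            cases R with
            | nil =>
              simp only [ValC, ev]
              rw [← pow_add, ← pow_add, ← pow_succ']
              congr 1; omega
            | one g T' =>
              have hmn : ¬ m + 1 ≤ n := fun h => hcase ⟨g, T', rfl, h⟩
              have h1 : m + 1 - n = (m - n) + 1 := by omega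
              have h2 : min (m + 1) n = min m n := by omega
              simp only [h1, h2, pow_succ]
              ring
            | two d T T' =>
              simp only [ValC, kp]
              have h3 : o'.be ^ (m + 1 - n) * o'.be ^ (min (m + 1) n) =
                  o'.be * (o'.be ^ (m - n) * o'.be ^ (min m n)) := by
                rw [← pow_add, ← pow_add, ← pow_succ']
                congr 1; omega
              have h4 : ∀ X : ℝ≥0∞, o'.be ^ (m + 1 - n) * (o'.be ^ (min (m + 1) n) * o'.ka * X) =
                  o'.be * (o'.be ^ (m - n) * (o'.be ^ (min m n) * o'.ka * X)) := by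
                intro X
                calc o'.be ^ (m + 1 - n) * (o'.be ^ (min (m + 1) n) * o'.ka * X) =
                    (o'.be ^ (m + 1 - n) * o'.be ^ (min (m + 1) n)) * (o'.ka * X) := by ring
                  _ = _ := by rw [h3]; ring
              exact h4 _
          rw [e]
          have l1 := lev_core2 (lop_tsum (List Bool)) o c0 o'.be
            (ValC (n := n) o' (a, 0) T1 (ev o')) (ψ a) (ψ a)
            (fun y : List Bool => z ^ (y.length + 1))
            (fun y => fix (y.map (lt (a + 1) (a + 2)))) S hS (n2 a)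
          refine l1.trans ?_
          refine le_trans ?_ (g2 a (T1.app S))
          refine ENNReal.tsum_le_tsum fun y => ?_
          gcongr
          rw [hass]
          exact ih _ (by omega) a _ (l_app_ne _ _ hS)
  refine ⟨z ^ 2 * c0, mul_ne_zero (pow_ne_zero 2 hz) hc0', fun T => ?_⟩
  have fin : ∀ (g y : Fin 3) (T : Tr), g ≠ y →
      z ^ 2 * c0 * ValC (n := n) o' (g, 0) T (ev o') ≤ z ^ 2 * G z g (T.app (.one y .nil)) := by
    intro g y T hgy
    have := key (sz T) T le_rfl g (.one y .nil) (by simp)
    rw [mul_assoc]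
    gcongr
    refine le_trans ?_ this
    gcongr
    simp only [ValS, ValC]
    calc ValC (n := n) o' (g, 0) T (ev o') = 1 * ValC (n := n) o' (g, 0) T (ev o') :=
          (one_mul _).symm
      _ ≤ _ := by gcongr; exact hψ1 _ _ hgy
  cases T with
  | nil => simp [ValS]
  | one g T => exact (fin g (g + 1) T (by revert g; decide)).trans (g4 g T)
  | two d T T' =>
    refine le_trans ?_ (g5 d T T')
    simp only [ValS]
    rw [mul_add, mul_add]
    exact add_le_add (fin (d + 1) d T (by revert d; decide)) (fin (d + 2) d T' (by revert d; decide))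

end SHR
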