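import Pool.Agent.Helper35.SHR.ASM2
import Pool.Agent.Helper35.SHR.LEV2
import Pool.Agent.Helper12.SHR.TOP2
import Pool.Agent.Helper16.SHR.SUM2
import Pool.Agent.Helper16.SHR.WTN
import Pool.Agent.Helper27.SHR.V3N
import Pool.Agent.Helper33.SHR.NUM2
import Pool.Agent.Helper41.SHR.V5N
import Pool.Agent.Helper51.SHR.PSI2
import Pool.Agent.Helper59.SHR.LZ2
import Pool.Agent.Helper77.SHR.GR2
import Pool.Agent.Helper80.SHR.V3E
import Pool.Agent.Helper80.SHR.SEM2
import Pool.Agent.Helper43.SHR.V5E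
import Pool.Agent.Helper32.SHR.STAR
import Pool.Agent.Helper53.SHR.VAL
import Pool.Agent.Helper38.SHR.STARN
import Pool.Agent.Helper13.SHQ.PEN
import Pool.Agent.Helper34.SHQ.GR
import Pool.Agent.Helper47.SHQ.LNG
import Pool.Agent.Helper67.SHQ.LIM
import Pool.Agent.Helper76.SHQ.DEF
import Pool.Agent.Helper84.SHQ.SHF
import Pool.Agent.Helper88.SHQ.PRE
import Pool.Agent.Helper92.SHQ.FIN
import Pool.Agent.Helper93.SHQ.SEM

/-!
# SHR, all rows together
-/

set_option autoImplicit false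

namespace SHR
open SHQ
open Filter Topology

theorem m_pen : ST_PEN := st_PEN st_SHF

theorem m_sem : ST_SEM := st_SEM st_SHF

theorem m_gr : ST_GR := st_GR m_pen st_PRE st_LNG m_sem

theorem m_gr2 : ST_GR2 := st_GR2 m_pen st_PRE st_LNG (st_SEM2 st_SHF m_sem st_LNG)

theorem m_star : ST_STAR := st_STAR st_VAL

theorem m_starn : ST_STARN := st_STARN m_star st_WTN

theorem m_v3e : ST_V3E := st_V3E st_VAL

theorem m_v5n : ST_V5N := st_V5N (st_V5E st_VAL) m_star st_WTN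

theorem m_sum : ST_SUM2 := st_SUM2 m_starn (st_V3N m_v3e m_starn m_v5n st_WTN) m_v3e st_WTN

/-- the growth rate of the ternary shuffle squares is at least `8.23` -/
theorem main : ∃ L : ℝ, 8.23 ≤ L ∧
    Tendsto (fun n : ℕ => ((S3 n).ncard : ℝ) ^ (1 / (n : ℝ))) atTop (𝓝 L) :=
  st_ASM2 (st_LIM st_DEF m_pen) (st_FIN st_DEF m_pen) (st_LEV2 m_gr m_gr2 st_LNG) (st_LZ2 m_gr)
    (st_TOP2 m_gr) m_sum st_PSI2 st_NUM2

end SHR
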