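import Pool.Agent.Helper35.SHQ.Sheet

/-! # SHR: numbers of the second scheme (integers, scaled by `DD = 10 ^ 12`, rounded down) -/

namespace SHR
open SHQ

/-- scale -/
def DD : ℕ := 10 ^ 12

/-- states of the content: last letter, run length `- 1` (at most `n`) -/
abbrev St (n : ℕ) := Fin 3 × Fin (n + 1)

def nx {n : ℕ} (s : St n) (a : Fin 3) : St n :=
  if a = s.1 then (if h : s.2.val < n then (a, ⟨s.2.val + 1, by omega⟩) else s) else (a, 0)

/-- numerical parameters -/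
structure NOm where
  rho : List ℕ
  be : ℕ
  ka : ℕ
deriving DecidableEq

def mulN (a b : ℕ) : ℕ := a * b / DD

def powN (a : ℕ) : ℕ → ℕ
  | 0 => DD
  | k + 1 => mulN (powN a k) a

def wtN {n : ℕ} (o : NOm) (s : St n) (a : Fin 3) : ℕ :=
  if a = s.1 then (if s.2.val < n then DD else o.be) else o.rho.getD s.2.val 0

def kpN {n : ℕ} (o : NOm) (s : St n) : ℕ := mulN (powN o.be s.2.val) o.ka

def psiN {n : ℕ} (te tn : List ℕ) (o : NOm) (f : Fin 3) (s : St n) : ℕ :=
  mulN (powN o.be s.2.val) (if f = s.1 then te.getD s.2.val 0 else tn.getD s.2.val 0)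

/-- table of a function (for evaluation only) -/
def tab {n : ℕ} (f : St n → ℕ) : List (List ℕ) :=
  (List.finRange 3).map fun a => (List.finRange (n + 1)).map fun r => f (a, r)

def look {n : ℕ} (l : List (List ℕ)) (s : St n) : ℕ := (l.getD s.1.val []).getD s.2.val 0

def memo {n : ℕ} (f : St n → ℕ) : St n → ℕ := look (tab f)

def LN {n : ℕ} (o : NOm) (a : Fin 3) (f : St n → ℕ) (s : St n) : ℕ := mulN (wtN o s a) (f (nx s a))

/-- sum over the words over `{a, b}` of length `≤ Y` -/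
def star2 {n : ℕ} (z : ℕ) (o : NOm) (a b : Fin 3) (f : St n → ℕ) : ℕ → St n → ℕ
  | 0 => memo f
  | Y + 1 => memo fun s => f s + mulN z (LN o a (star2 z o a b f Y) s + LN o b (star2 z o a b f Y) s)

def star1 {n : ℕ} (z : ℕ) (o : NOm) (a : Fin 3) (f : St n → ℕ) : ℕ → St n → ℕ
  | 0 => memo f
  | Y + 1 => memo fun s => f s + mulN z (LN o a (star1 z o a f Y) s)

/-- `(p, h, g) = (0, 1, 2)`; `B`: all words over `{p, h}`, `H`: `h^j`, `C`: words with a `p` (value
of the word), `E`: words with a `p` (value of `D2.2`), `A`: words with a `p` (value of `D2.1`) -/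
structure V5 (n : ℕ) where
  B : St n → ℕ
  H : St n → ℕ
  C : St n → ℕ
  E : St n → ℕ
  A : St n → ℕ

def v5 {n : ℕ} (z : ℕ) (o : NOm) (f : St n → ℕ) : ℕ → V5 n
  | 0 => ⟨f, f, fun _ => 0, fun _ => 0, fun _ => 0⟩
  | Y + 1 =>
    let v := v5 z o f Y
    ⟨memo fun s => f s + mulN z (LN o 0 v.B s + LN o 1 v.B s),
     memo fun s => f s + mulN z (LN o 1 v.H s),
     memo fun s => mulN z (LN o 1 v.C s + LN o 0 v.B s),
     memo fun s => mulN z (LN o 1 v.E s + v.A s + v.H s),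
     memo fun s => mulN z (LN o 0 v.A s + LN o 0 v.H s +
       mulN (kpN o s) (v.C (1, 0) + LN o 1 v.E (0, 0)))⟩

/-- `EN`: `y1 .. yk` fixed, then `D2.2`; `ZN`: fixed words; `MP`: value of `RT` (words with a `p`) -/
structure V3 (n : ℕ) where
  EN : St n → ℕ
  ZN : St n → ℕ
  MP : St n → ℕ

def v3 {n : ℕ} (z Y : ℕ) (o : NOm) (v : V5 n) : ℕ → V3 n
  | 0 => ⟨v.E, v.H, v.A⟩
  | k + 1 =>
    let u := v3 z Y o v k
    let XE := star2 z o 1 2 u.EN Y
    let XM := star2 z o 1 2 u.MP Y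
    ⟨memo fun s => mulN z (XE s), memo fun s => mulN z (star2 z o 1 2 u.ZN Y s),
     memo fun s => mulN z (u.MP s + mulN z (mulN (kpN o s)
       (LN o 1 XE (0, 0) + XM (1, 0) + LN o 2 XE (0, 0) + XM (2, 0))))⟩

def allSt (n : ℕ) : List (St n) :=
  (List.finRange 3).flatMap fun a => (List.finRange (n + 1)).map fun r => (a, r)

/-- the check `o → o'` -/
def chk (n z Y : ℕ) (te tn : List ℕ) (o o' : NOm) : Bool :=
  let v := v5 z o (memo (psiN (n := n) te tn o 2)) Y
  let f0 : St n → ℕ := memo (psiN te tn o 0)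
  ((List.range (n + 1)).all fun k =>
    let u := v3 z Y o v k
    (allSt n).all fun s => decide (psiN te tn o 0 s = 0 ∨
      mulN (o'.rho.getD k 0) (psiN te tn o 0 s) + 1 ≤ mulN z (u.MP s + u.ZN s))) &&
  ((allSt n).all fun s => decide (psiN te tn o 0 s = 0 ∨
      mulN o'.be (psiN te tn o 0 s) + 1 ≤ mulN z (star2 z o 1 2 f0 Y s))) &&
  ((allSt n).all fun s => (List.finRange 3).all fun t =>
    decide (psiN te tn o t s = 0 ∨
      mulN o'.ka (psiN te tn o t s) + 1 ≤ mulN z (star1 z o 2 f0 Y s)))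

end SHR
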