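import Pool.Agent.Helper35.SHR.Num

/-!
# SHR: second scheme, growth rate at least 8.23 (MP_0dfa80_co)

As SHQ, but whole runs of equal popped letters are exchanged: the front is `p ^ (k+1) g`
(`p` just popped, `k` further letters `p`, then `g ≠ p`), the gap words are `y_1, .., y_k` over
`{h, g}` and the last one `y` over `{p, h}`; greedy content `y_1 .. y_k y`; if `y` contains `p`,
one of the `k + 1` greedy positions of `p` may be skipped (its `p` is inserted into the content)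
and one `p` of `y` is popped instead: the trie `RT`.
The states of the content are (last letter, length of the last run - 1, at most `n`); the value of
a run is only known at its end (`rho r`), `be` for every letter beyond `n + 1`.
-/

namespace SHR
open SHQ
open scoped ENNReal
open Filter Topology

/-- `k` letters `p` -/
def ones (p : Fin 3) : ℕ → Tr → Tr
  | 0, T => T
  | k + 1, T => .one p (ones p k T)

/-- the two-node with the children `a → X`, `b → Y` (`a ≠ b`) -/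
def nd (a b : Fin 3) (X Y : Tr) : Tr :=
  .two (th a b) (if th a b + 1 = a then X else Y) (if th a b + 2 = a then X else Y)

/-- the content of a run -/
def RT (p g : Fin 3) : List (List Bool) → List Bool → Tr
  | [], y => (D2 p g y).1
  | [] :: ys, y => RT p g ys y
  | (t :: y') :: ys, y =>
    if true ∈ y then
      nd p (lt (th p g) g t)
        ((fix (((t :: y') :: ys).flatten.map (lt (th p g) g))).app (D2 p g y).2)
        ((fix (y'.map (lt (th p g) g))).app (RT p g ys y))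
    else fix (((t :: y') :: ys).flatten.map (lt (th p g) g) ++ y.map (lt p (th p g)))

/-- the word which is read: `p y_1 p y_2 .. p y` -/
def rw (p g : Fin 3) : List (List Bool) → List Bool → W
  | [], y => p :: y.map (lt p (th p g))
  | y1 :: ys, y => p :: (y1.map (lt (th p g) g) ++ rw p g ys y)

/-- sum over the lists of length `k` -/
noncomputable def TSum : ℕ → (List (List Bool) → ℝ≥0∞) → ℝ≥0∞
  | 0, φ => φ []
  | k + 1, φ => ∑' y : List Bool, TSum k fun ys => φ (y :: ys)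

structure Om where
  rho : ℕ → ℝ≥0∞
  be : ℝ≥0∞
  ka : ℝ≥0∞

noncomputable section

def wt {n : ℕ} (o : Om) (s : St n) (a : Fin 3) : ℝ≥0∞ :=
  if a = s.1 then (if s.2.val < n then 1 else o.be) else o.rho s.2.val

def kp {n : ℕ} (o : Om) (s : St n) : ℝ≥0∞ := o.be ^ s.2.val * o.ka

def ev {n : ℕ} (o : Om) (s : St n) : ℝ≥0∞ := o.be ^ s.2.val

def ValC {n : ℕ} (o : Om) : St n → Tr → (St n → ℝ≥0∞) → ℝ≥0∞
  | s, .nil, f => f s
  | s, .one a T, f => wt o s a * ValC o (nx s a) T f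
  | s, .two c T T', f => kp o s * (ValC o (c + 1, 0) T f + ValC o (c + 2, 0) T' f)

def ValS {n : ℕ} (o : Om) (T : Tr) (f : St n → ℝ≥0∞) : ℝ≥0∞ :=
  match T with
  | .nil => 0
  | .one a T => ValC o (a, 0) T f
  | .two c T T' => ValC o (c + 1, 0) T f + ValC o (c + 2, 0) T' f

end

def Good (n : ℕ) (z : ℝ≥0∞) (ψ : Fin 3 → St n → ℝ≥0∞) (o o' : Om) : Prop :=
  (∀ k : ℕ, k ≤ n → ∀ (p g : Fin 3) (s : St n), g ≠ p → o'.rho k * ψ p s ≤
    TSum k fun ys => ∑' y : List Bool, z ^ (ys.flatten.length + k + y.length + 1) *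
      ValC o s (RT p g ys y) (ψ g)) ∧
  (∀ (p : Fin 3) (s : St n), o'.be * ψ p s ≤
    ∑' y : List Bool, z ^ (y.length + 1) * ValC o s (fix (y.map (lt (p + 1) (p + 2)))) (ψ p)) ∧
  (∀ (t a c : Fin 3) (s : St n), c ≠ a → o'.ka * ψ t s ≤
    ∑' j : ℕ, z ^ (j + 1) * ValC o s (fix (List.replicate j c)) (ψ a))

def Lev (n : ℕ) (z : ℝ≥0∞) (o : Om) : Prop :=
  ∃ c : ℝ≥0∞, c ≠ 0 ∧ ∀ T : Tr, c * ValS (n := n) o T (ev o) ≤ F z T

/-! ## The rows -/

/-- (SEM2) from SHF, SEM, LNG -/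
def ST_SEM2 : Prop := ∀ p g : Fin 3, g ≠ p → ∀ (ys : List (List Bool)) (y : List Bool),
  ∀ d ∈ (RT p g ys y).lang, Shf (rw p g ys y) (List.replicate (ys.length + 1) p) d

/-- (GR2) the run clause (from PEN, PRE, LNG, SEM2); the word after the first `p` is
`y_1 p y_2 p .. y g x` -/
def ST_GR2 : Prop := ∀ (z : ℝ≥0∞) (k : ℕ) (p g : Fin 3) (T : Tr), g ≠ p →
  (TSum k fun ys => ∑' y : List Bool, z ^ (ys.flatten.length + k + y.length + 1) *
    G z g (T.app (RT p g ys y))) ≤ G z p (ones p k (.one g T))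

/-- (LEV2) from GR, GR2, LNG. Claim, by strong induction on `T`, for all `p` and `S ≠ nil`:
`c0 * ValS o S (fun s => ψ p s * ValC o' (p, 0) T (ev o')) ≤ G z p (T.app S)`; for `T = .one p T1`
the value is `rho' k * ..` if `T = ones p k (.one g T')`, `1 ≤ k ≤ n`, `g ≠ p` (GR2), and
`be' * ValC o' (p, 0) T1 (ev o')` in all other cases (third clause of GR) -/
def ST_LEV2 : Prop := ∀ (n : ℕ) (z C : ℝ≥0∞) (ψ : Fin 3 → St n → ℝ≥0∞) (o o' : Om),
  z ≠ 0 → z ≠ ⊤ → C ≠ ⊤ → (∀ f s, ψ f s ≤ C * ev o s) → (∀ f b, f ≠ b → 1 ≤ ψ f (b, 0)) →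
  Good n z ψ o o' → Lev n z o → Lev n z o'

/-- (LZ2) the start, from GR -/
def ST_LZ2 : Prop := ∀ (n : ℕ) (z : ℝ≥0∞), z ≠ 0 → Lev n z ⟨fun _ => 0, 0, 0⟩

/-- (TOP2) the end, from GR; the value of `c ^ j` is `be ^ (j - 1)` -/
def ST_TOP2 : Prop := ∀ (n : ℕ) (z : ℝ≥0∞) (o : Om), z ≠ 0 → 1 ≤ z * o.be → Lev n z o →
  ∀ g, F z (.one g .nil) = ⊤

noncomputable def toE (x : ℕ) : ℝ≥0∞ := (x : ℝ≥0∞) / (DD : ℝ≥0∞)

noncomputable def NOm.om (o : NOm) : Om := ⟨fun k => toE (o.rho.getD k 0), toE o.be, toE o.ka⟩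

/-- (SUM2) the check of `Num` gives `Good`; every number of `chk` is a lower bound: `toE (mulN a b) ≤
toE a * toE b < toE (mulN a b + 1)` (or equal); other letters than `(p, h, g) = (0, 1, 2)` by a
bijection (`wt`, `nx` only see equality of letters) -/
def ST_SUM2 : Prop := ∀ (n z Y : ℕ) (te tn : List ℕ) (o o' : NOm),
  chk n z Y te tn o o' = true →
  Good n (toE z) (fun f s => toE (psiN te tn o f s)) o.om o'.om

/-- (PSI2) -/
def ST_PSI2 : Prop := ∀ (n : ℕ) (te tn : List ℕ) (o : NOm), DD ≤ tn.getD 0 0 →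
  (∃ C : ℝ≥0∞, C ≠ ⊤ ∧ ∀ (f : Fin 3) (s : St n), toE (psiN te tn o f s) ≤ C * ev o.om s) ∧
  ∀ f b : Fin 3, f ≠ b → 1 ≤ toE (psiN (n := n) te tn o f (b, 0))

/-- the parameters -/
def zz : ℕ := 348578000000
def TE : List ℕ := [1000000000000, 1018590000000, 1034520000000, 1024910000000]
def TN : List ℕ := [1000770000000, 1023030000000, 1036120000000, 1043610000000]

/-- (NUM2) -/
def ST_NUM2 : Prop := ∃ (N : ℕ) (o : ℕ → NOm), o 0 = ⟨[0, 0, 0, 0], 0, 0⟩ ∧
  (∀ i, i < N → chk 3 zz 16 TE TN (o i) (o (i + 1)) = true) ∧ DD * DD ≤ zz * (o N).be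

/-- (ASM2) -/
def ST_ASM2 : Prop := ∃ L : ℝ, 8.23 ≤ L ∧
  Tendsto (fun n : ℕ => ((S3 n).ncard : ℝ) ^ (1 / (n : ℝ))) atTop (𝓝 L)

end SHR
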