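import Pool.Agent.Helper35.SHR.Sheet

/-!
# SHR: the row SUM2 split

All sums are full sums (no partial sums): `SB` etc. satisfy the recursions of `Num.lean` (STAR, V5E,
V3E), and the integers of `Num.lean` are lower bounds (STARN, V5N, V3N), by induction on `Y` and `k`.
-/

namespace SHR
open SHQ
open scoped ENNReal

noncomputable section

/-- words over `{a, b}` -/
def SB {n : ℕ} (z : ℝ≥0∞) (o : Om) (a b : Fin 3) (f : St n → ℝ≥0∞) (s : St n) : ℝ≥0∞ :=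
  ∑' y : List Bool, z ^ y.length * ValC o s (fix (y.map (lt a b))) f

/-- words `a ^ j` -/
def SJ {n : ℕ} (z : ℝ≥0∞) (o : Om) (a : Fin 3) (f : St n → ℝ≥0∞) (s : St n) : ℝ≥0∞ :=
  ∑' j : ℕ, z ^ j * ValC o s (fix (List.replicate j a)) f

def H5 {n : ℕ} (z : ℝ≥0∞) (o : Om) (p g : Fin 3) (f : St n → ℝ≥0∞) (s : St n) : ℝ≥0∞ :=
  ∑' y : List Bool, if true ∈ y then 0 else
    z ^ y.length * ValC o s (fix (y.map (lt p (th p g)))) f

def C5 {n : ℕ} (z : ℝ≥0∞) (o : Om) (p g : Fin 3) (f : St n → ℝ≥0∞) (s : St n) : ℝ≥0∞ :=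
  ∑' y : List Bool, if true ∈ y then
    z ^ y.length * ValC o s (fix (y.map (lt p (th p g)))) f else 0

def E5 {n : ℕ} (z : ℝ≥0∞) (o : Om) (p g : Fin 3) (f : St n → ℝ≥0∞) (s : St n) : ℝ≥0∞ :=
  ∑' y : List Bool, if true ∈ y then z ^ y.length * ValC o s (D2 p g y).2 f else 0

def A5 {n : ℕ} (z : ℝ≥0∞) (o : Om) (p g : Fin 3) (f : St n → ℝ≥0∞) (s : St n) : ℝ≥0∞ :=
  ∑' y : List Bool, if true ∈ y then z ^ y.length * ValC o s (D2 p g y).1 f else 0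

def EN3 {n : ℕ} (z : ℝ≥0∞) (o : Om) (p g : Fin 3) (f : St n → ℝ≥0∞) (k : ℕ) (s : St n) : ℝ≥0∞ :=
  TSum k fun ys => ∑' y : List Bool, if true ∈ y then
    z ^ (ys.flatten.length + k + y.length) *
      ValC o s ((fix (ys.flatten.map (lt (th p g) g))).app (D2 p g y).2) f else 0

def ZN3 {n : ℕ} (z : ℝ≥0∞) (o : Om) (p g : Fin 3) (f : St n → ℝ≥0∞) (k : ℕ) (s : St n) : ℝ≥0∞ :=
  TSum k fun ys => ∑' y : List Bool, if true ∈ y then 0 else
    z ^ (ys.flatten.length + k + y.length) *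
      ValC o s (fix (ys.flatten.map (lt (th p g) g) ++ y.map (lt p (th p g)))) f

def MP3 {n : ℕ} (z : ℝ≥0∞) (o : Om) (p g : Fin 3) (f : St n → ℝ≥0∞) (k : ℕ) (s : St n) : ℝ≥0∞ :=
  TSum k fun ys => ∑' y : List Bool, if true ∈ y then
    z ^ (ys.flatten.length + k + y.length) * ValC o s (RT p g ys y) f else 0

end

/-- (VAL) -/
def ST_VAL : Prop := ∀ (n : ℕ) (o : Om),
  (∀ (s : St n) (T S : Tr) (f : St n → ℝ≥0∞),
    ValC o s (T.app S) f = ValC o s T fun s' => ValC o s' S f) ∧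
  (∀ (s : St n) (T : Tr) (ι : Type) (f : ι → St n → ℝ≥0∞),
    ValC o s T (fun s' => ∑' i, f i s') = ∑' i, ValC o s T (f i)) ∧
  (∀ (s : St n) (T : Tr) (c : ℝ≥0∞) (f : St n → ℝ≥0∞),
    ValC o s T (fun s' => c * f s') = c * ValC o s T f) ∧
  (∀ (s : St n) (p t : Fin 3) (X Y : Tr) (f : St n → ℝ≥0∞), p ≠ t →
    ValC o s (nd p t X Y) f = kp o s * (ValC o (p, 0) X f + ValC o (t, 0) Y f)) ∧
  (∀ φ : List Bool → ℝ≥0∞, ∑' y, φ y = φ [] + (∑' y, φ (true :: y) + ∑' y, φ (false :: y)))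

/-- (STAR) from VAL -/
def ST_STAR : Prop := ∀ (n : ℕ) (z : ℝ≥0∞) (o : Om) (a b : Fin 3) (f : St n → ℝ≥0∞) (s : St n),
  SB z o a b f s = f s + z * (wt o s a * SB z o a b f (nx s a) + wt o s b * SB z o a b f (nx s b)) ∧
  SJ z o a f s = f s + z * (wt o s a * SJ z o a f (nx s a))

/-- (V5E) from VAL; `h = th p g` -/
def ST_V5E : Prop := ∀ (n : ℕ) (z : ℝ≥0∞) (o : Om) (p g : Fin 3) (f : St n → ℝ≥0∞) (s : St n),
  g ≠ p →
  H5 z o p g f s = f s + z * (wt o s (th p g) * H5 z o p g f (nx s (th p g))) ∧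
  C5 z o p g f s = z * (wt o s (th p g) * C5 z o p g f (nx s (th p g)) +
    wt o s p * SB z o p (th p g) f (nx s p)) ∧
  E5 z o p g f s = z * (wt o s (th p g) * E5 z o p g f (nx s (th p g)) + A5 z o p g f s +
    H5 z o p g f s) ∧
  A5 z o p g f s = z * (wt o s p * (A5 z o p g f (nx s p) + H5 z o p g f (nx s p)) +
    kp o s * (C5 z o p g f (th p g, 0) + wt o ((p, 0) : St n) (th p g) *
      E5 z o p g f (nx (p, 0) (th p g))))

/-- (V3E) from VAL; `h = th p g` -/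
def ST_V3E : Prop := ∀ (n : ℕ) (z : ℝ≥0∞) (o : Om) (p g : Fin 3) (f : St n → ℝ≥0∞), g ≠ p →
  (∀ s, EN3 z o p g f 0 s = E5 z o p g f s ∧ ZN3 z o p g f 0 s = H5 z o p g f s ∧
    MP3 z o p g f 0 s = A5 z o p g f s) ∧
  (∀ k s, EN3 z o p g f (k + 1) s = z * SB z o (th p g) g (EN3 z o p g f k) s ∧
    ZN3 z o p g f (k + 1) s = z * SB z o (th p g) g (ZN3 z o p g f k) s ∧
    MP3 z o p g f (k + 1) s = z * (MP3 z o p g f k s + z * (kp o s *
      ((wt o ((p, 0) : St n) (th p g) * SB z o (th p g) g (EN3 z o p g f k) (nx (p, 0) (th p g)) +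
        SB z o (th p g) g (MP3 z o p g f k) (th p g, 0)) +
       (wt o ((p, 0) : St n) g * SB z o (th p g) g (EN3 z o p g f k) (nx (p, 0) g) +
        SB z o (th p g) g (MP3 z o p g f k) (g, 0)))))) ∧
  (∀ k s, z * (MP3 z o p g f k s + ZN3 z o p g f k s) = TSum k fun ys => ∑' y : List Bool,
    z ^ (ys.flatten.length + k + y.length + 1) * ValC o s (RT p g ys y) f)

/-- relabelling `(p, h, g) ↦ (0, 1, 2)` -/
def rl (p g a : Fin 3) : Fin 3 := if a = p then 0 else if a = g then 2 else 1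

def rs {n : ℕ} (p g : Fin 3) (s : St n) : St n := (rl p g s.1, s.2)

/-- (WTN) -/
def ST_WTN : Prop :=
  (∀ a b : ℕ, toE (mulN a b) ≤ toE a * toE b ∧ toE a * toE b ≤ toE (mulN a b + 1) ∧
    toE (a + b) = toE a + toE b ∧ (a ≤ b → toE a ≤ toE b)) ∧
  (∀ (n : ℕ) (f : St n → ℕ), memo f = f) ∧
  (∀ (n : ℕ) (p g : Fin 3), g ≠ p → rl p g p = 0 ∧ rl p g (th p g) = 1 ∧ rl p g g = 2 ∧
    (∀ (te tn : List ℕ) (o : NOm) (t : Fin 3) (s : St n),
      psiN te tn o (rl p g t) (rs p g s) = psiN te tn o t s) ∧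
    ∀ (o : NOm) (s : St n) (a : Fin 3),
      toE (wtN o (rs p g s) (rl p g a)) = wt o.om s a ∧
      nx (rs p g s) (rl p g a) = rs p g (nx s a) ∧
      toE (kpN o (rs p g s)) ≤ kp o.om s)

/-- (STARN) from STAR, WTN -/
def ST_STARN : Prop := ∀ (n z : ℕ) (o : NOm) (p g : Fin 3) (F : St n → ℕ) (f : St n → ℝ≥0∞),
  g ≠ p → (∀ s, toE (F (rs p g s)) ≤ f s) → ∀ (Y : ℕ) (a b : Fin 3) (s : St n),
  toE (star2 z o (rl p g a) (rl p g b) F Y (rs p g s)) ≤ SB (toE z) o.om a b f s ∧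
  toE (star1 z o (rl p g a) F Y (rs p g s)) ≤ SJ (toE z) o.om a f s

/-- (V5N) from V5E, STAR, WTN -/
def ST_V5N : Prop := ∀ (n z : ℕ) (o : NOm) (p g : Fin 3) (F : St n → ℕ) (f : St n → ℝ≥0∞),
  g ≠ p → (∀ s, toE (F (rs p g s)) ≤ f s) → ∀ (Y : ℕ) (s : St n),
  toE ((v5 z o F Y).B (rs p g s)) ≤ SB (toE z) o.om p (th p g) f s ∧
  toE ((v5 z o F Y).H (rs p g s)) ≤ H5 (toE z) o.om p g f s ∧
  toE ((v5 z o F Y).C (rs p g s)) ≤ C5 (toE z) o.om p g f s ∧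
  toE ((v5 z o F Y).E (rs p g s)) ≤ E5 (toE z) o.om p g f s ∧
  toE ((v5 z o F Y).A (rs p g s)) ≤ A5 (toE z) o.om p g f s

/-- (V3N) from V3E, STARN, V5N, WTN -/
def ST_V3N : Prop := ∀ (n z : ℕ) (o : NOm) (p g : Fin 3) (F : St n → ℕ) (f : St n → ℝ≥0∞),
  g ≠ p → (∀ s, toE (F (rs p g s)) ≤ f s) → ∀ (Y k : ℕ) (s : St n),
  toE ((v3 z Y o (v5 z o F Y) k).EN (rs p g s)) ≤ EN3 (toE z) o.om p g f k s ∧
  toE ((v3 z Y o (v5 z o F Y) k).ZN (rs p g s)) ≤ ZN3 (toE z) o.om p g f k s ∧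
  toE ((v3 z Y o (v5 z o F Y) k).MP (rs p g s)) ≤ MP3 (toE z) o.om p g f k s

/- (SUM2) from STARN, V3N, V3E (last clause), WTN: `ST_SUM2` of the first sheet. First clause of
`Good` with `rl p g`; second clause with `rl p (p + 2)` (`th p (p + 2) = p + 1`); third clause with
`rl a c`. -/

end SHR
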